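import Mathlib
import Pool.Agent.Run7.h222.SU.Stm

set_option autoImplicit false

namespace Run7.h739.SU

open Matrix Pool.Agent.H16.SUn Run7.h222.SU

theorem angle (z : ℂ) (h1 : star z * z = 1) (h2 : 0 < z.im) :
    z = Complex.exp ((z.arg : ℝ) * Complex.I) ∧ 0 < z.arg ∧ z.arg < Real.pi := by
  have hn : ‖z‖ = 1 := by
    have h3 : (starRingEnd ℂ) z * z = 1 := h1
    rw [Complex.conj_mul'] at h3
    have h4 : ‖z‖ ^ 2 = 1 := by exact_mod_cast h3
    exact (pow_eq_one_iff_of_nonneg (norm_nonneg _) two_ne_zero).1 h4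
  refine ⟨?_, ?_, ?_⟩
  · have := Complex.norm_mul_exp_arg_mul_I z
    rw [hn] at this
    simpa using this.symm
  · refine lt_of_le_of_ne (Complex.arg_nonneg_iff.2 h2.le) fun h => ?_
    have := (Complex.arg_eq_zero_iff.1 h.symm).2
    rw [this] at h2
    exact lt_irrefl _ h2
  · exact Complex.arg_lt_pi_iff.2 (Or.inr h2.ne')

theorem cross (S : ℕ → ℝ) (h : ℕ) (hh : 0 < h) (h0 : S 0 + S h = 0) : ∃ k < h, S k * S (k + 1) ≤ 0 := by
  by_contra hcon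
  push Not at hcon
  have h1 : 0 < S 0 * S 0 := by
    have := hcon 0 hh
    have : S 0 ≠ 0 := fun h => by rw [h] at this; simp at this
    exact mul_self_pos.2 this
  have h2 : ∀ k, k ≤ h → 0 < S 0 * S k := by
    intro k
    induction k with
    | zero => intro _; exact h1
    | succ k ih =>
      intro hk
      have h3 := ih (by omega)
      have h4 := hcon k (by omega)
      have h5 : 0 < (S 0 * S k) * (S k * S (k + 1)) := mul_pos h3 h4
      have h6 : (S 0 * S k) * (S k * S (k + 1)) = (S k * S k) * (S 0 * S (k + 1)) := by ring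
      rw [h6] at h5
      exact (pos_iff_pos_of_mul_pos h5).1 (by
        have : S k ≠ 0 := fun h => by rw [h] at h3; simp at h3
        exact mul_self_pos.2 this)
  have h7 := h2 h le_rfl
  have h8 : S h = -S 0 := by linarith
  rw [h8] at h7
  nlinarith

theorem cyc {α : Type} [DecidableEq α] (p q r : α) (hpr : p ≠ r) (hqr : q ≠ r) :
    (Equiv.swap p r * Equiv.swap p q) q = r ∧ (Equiv.swap p r * Equiv.swap p q) r = p ∧
    ∀ i, i ≠ p → i ≠ q → i ≠ r → (Equiv.swap p r * Equiv.swap p q) i = i := by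
  refine ⟨?_, ?_, fun i h1 h2 h3 => ?_⟩
  · rw [Equiv.Perm.mul_apply, Equiv.swap_apply_right, Equiv.swap_apply_left]
  · rw [Equiv.Perm.mul_apply, Equiv.swap_apply_of_ne_of_ne hpr.symm hqr.symm, Equiv.swap_apply_right]
  · rw [Equiv.Perm.mul_apply, Equiv.swap_apply_of_ne_of_ne h1 h2, Equiv.swap_apply_of_ne_of_ne h1 h3]

theorem t_SELA : S_W → S_SELA := by
  intro hW n z hn4 hn6 hz hprod him
  obtain ⟨j, rfl⟩ : ∃ j, n = 4 * j + 6 := ⟨(n - 6) / 4, by omega⟩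
  -- angles
  obtain ⟨Θ, hΘ⟩ : ∃ Θ : ℕ → ℝ, Θ = fun i => if h : i < 4 * j + 6 then (z ⟨i, h⟩).arg else 0 := ⟨_, rfl⟩
  have hΘz : ∀ i (h : i < 4 * j + 6), z ⟨i, h⟩ = Complex.exp ((Θ i : ℝ) * Complex.I) := by
    intro i h
    rw [hΘ]
    simp only [dif_pos h]
    exact (angle _ (hz _) (him _)).1
  have hΘ0 : ∀ i, i < 4 * j + 6 → 0 < Θ i ∧ Θ i < Real.pi := by
    intro i h
    rw [hΘ]
    simp only [dif_pos h]
    exact (angle _ (hz _) (him _)).2
  -- total sum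
  obtain ⟨M, hM⟩ : ∃ M : ℤ, ∑ i ∈ Finset.range (4 * j + 6), Θ i = 2 * Real.pi * M := by
    have h1 : Complex.exp (((∑ i ∈ Finset.range (4 * j + 6), Θ i : ℝ) : ℂ) * Complex.I) = 1 := by
      rw [← hprod, Complex.ofReal_sum, Finset.sum_mul, Complex.exp_sum, Finset.prod_range]
      exact Finset.prod_congr rfl fun i _ => (hΘz i.1 i.2).symm
    obtain ⟨M, hM⟩ := Complex.exp_eq_one_iff.1 h1
    refine ⟨M, ?_⟩
    have h2 : ((∑ i ∈ Finset.range (4 * j + 6), Θ i : ℝ) : ℂ) = ((2 * Real.pi * M : ℝ) : ℂ) := by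
      apply mul_right_cancel₀ Complex.I_ne_zero
      rw [hM]
      push_cast
      ring
    exact_mod_cast h2
  obtain ⟨k, hk, hcr⟩ := cross (fun k => ∑ i ∈ Finset.Ico k (k + (2 * j + 3)), Θ i - Real.pi * M) (2 * j + 3)
    (by omega) (by
      have h1 := Finset.sum_Ico_consecutive Θ (Nat.zero_le (2 * j + 3)) (by omega : 2 * j + 3 ≤ 4 * j + 6)
      rw [← Finset.range_eq_Ico (4 * j + 6), hM] at h1
      have h2 : 2 * j + 3 + (2 * j + 3) = 4 * j + 6 := by ring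
      simp only [zero_add, h2]
      linarith)
  obtain ⟨sE, hsE⟩ : ∃ sE : ℝ, sE = ∑ i ∈ Finset.Ico (k + 1) (k + (2 * j + 3)), Θ i := ⟨_, rfl⟩
  have hk1 : ∑ i ∈ Finset.Ico k (k + (2 * j + 3)), Θ i = Θ k + sE := by
    rw [hsE]
    exact Finset.sum_eq_sum_Ico_succ_bot (by omega) Θ
  have hk2 : ∑ i ∈ Finset.Ico (k + 1) (k + 1 + (2 * j + 3)), Θ i = sE + Θ (k + (2 * j + 3)) := by
    rw [hsE, show k + 1 + (2 * j + 3) = (k + (2 * j + 3)) + 1 by ring]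
    exact Finset.sum_Ico_succ_top (by omega) Θ
  simp only [hk1, hk2] at hcr
  -- the permutation
  let c : Fin (4 * j + 6) := ⟨k + (2 * j + 3), by omega⟩
  let ρ : Equiv.Perm (Fin (4 * j + 6)) := Equiv.addRight c
  let σ : Equiv.Perm (Fin (4 * j + 6)) :=
    Equiv.swap ⟨0, by omega⟩ ⟨2 * j + 3, by omega⟩ * Equiv.swap ⟨0, by omega⟩ ⟨2 * j + 1, by omega⟩
  have hρ : ∀ i : Fin (4 * j + 6), (ρ i : ℕ) = (i.1 + (k + (2 * j + 3))) % (4 * j + 6) := fun i => Fin.val_add i c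
  obtain ⟨π, hπ⟩ : ∃ π : Equiv.Perm (Fin (4 * j + 6)), π = σ.trans ρ := ⟨_, rfl⟩
  obtain ⟨hσ1, hσ3, hσt'⟩ := cyc (⟨0, by omega⟩ : Fin (4 * j + 6)) ⟨2 * j + 1, by omega⟩ ⟨2 * j + 3, by omega⟩
    (Fin.ne_of_val_ne (show 0 ≠ 2 * j + 3 by omega)) (Fin.ne_of_val_ne (show 2 * j + 1 ≠ 2 * j + 3 by omega))
  have hσt : ∀ i (hi : i < 4 * j + 6), 2 * j + 3 < i → σ ⟨i, hi⟩ = ⟨i, hi⟩ := fun i hi h =>
    hσt' ⟨i, hi⟩ (Fin.ne_of_val_ne (show i ≠ 0 by omega)) (Fin.ne_of_val_ne (show i ≠ 2 * j + 1 by omega))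
      (Fin.ne_of_val_ne (show i ≠ 2 * j + 3 by omega))
  have hπ1 : π ⟨2 * j + 1, by omega⟩ = ⟨k, by omega⟩ := by
    rw [hπ, Equiv.trans_apply, hσ1]
    apply Fin.ext
    rw [hρ]
    show (2 * j + 3 + (k + (2 * j + 3))) % (4 * j + 6) = k
    rw [show 2 * j + 3 + (k + (2 * j + 3)) = k + (4 * j + 6) by ring, Nat.add_mod_right, Nat.mod_eq_of_lt (by omega)]
  have hπ3 : π ⟨2 * j + 3, by omega⟩ = ⟨k + (2 * j + 3), by omega⟩ := by
    rw [hπ, Equiv.trans_apply, hσ3]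
    apply Fin.ext
    rw [hρ]
    show (0 + (k + (2 * j + 3))) % (4 * j + 6) = k + (2 * j + 3)
    rw [zero_add, Nat.mod_eq_of_lt (by omega)]
  have hπt : ∀ i (hi : i < 4 * j + 6) (h : 2 * j + 3 < i), π ⟨i, hi⟩ = ⟨i + k - (2 * j + 3), by omega⟩ := by
    intro i hi h
    rw [hπ, Equiv.trans_apply, hσt i hi h]
    apply Fin.ext
    rw [hρ]
    show (i + (k + (2 * j + 3))) % (4 * j + 6) = i + k - (2 * j + 3)
    rw [show i + (k + (2 * j + 3)) = (i + k - (2 * j + 3)) + (4 * j + 6) by omega, Nat.add_mod_right,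
      Nat.mod_eq_of_lt (by omega)]
  obtain ⟨a, ha⟩ : ∃ a : Fin (4 * j + 6) → ℂ, a = fun i => z (π i) := ⟨_, rfl⟩
  obtain ⟨η, hη⟩ : ∃ η : ℝ, η = Θ (π ⟨2 * j + 2, by omega⟩ : Fin (4 * j + 6)).1 := ⟨_, rfl⟩
  have hη0 : 0 < η ∧ η < Real.pi := hη ▸ hΘ0 _ (π ⟨2 * j + 2, by omega⟩).2
  have hφ0 := hΘ0 k (by omega)
  have hγ0 := hΘ0 (k + (2 * j + 3)) (by omega)
  have ha1 : a ⟨2 * j + 1, by omega⟩ = Complex.exp ((Θ k : ℝ) * Complex.I) := by
    rw [ha]; simp only; rw [hπ1]; exact hΘz _ _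
  have ha2 : a ⟨2 * j + 2, by omega⟩ = Complex.exp ((η : ℝ) * Complex.I) := by
    rw [ha, hη]; exact hΘz _ _
  have ha3 : a ⟨2 * j + 3, by omega⟩ = Complex.exp ((Θ (k + (2 * j + 3)) : ℝ) * Complex.I) := by
    rw [ha]; simp only; rw [hπ3]; exact hΘz _ _
  have haprod : ∏ i, a i = 1 := by
    rw [ha, ← hprod]
    exact Equiv.prod_comp π z
  have hpn := pp_n a haprod
  have htail : pp a (2 * j + 4) * Complex.exp ((sE : ℝ) * Complex.I) = 1 := by
    rw [← hpn]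
    unfold pp
    rw [← Finset.prod_range_mul_prod_Ico _ (by omega : 2 * j + 4 ≤ 4 * j + 6)]
    congr 1
    rw [hsE, Complex.ofReal_sum, Finset.sum_mul, Complex.exp_sum]
    have e1 := Finset.prod_Ico_add' (fun i => Complex.exp ((Θ i : ℝ) * Complex.I)) (k + 1) (k + (2 * j + 3)) 0
    rw [Finset.prod_Ico_eq_prod_range, Finset.prod_Ico_eq_prod_range]
    rw [show k + (2 * j + 3) - (k + 1) = 2 * j + 2 by omega, show 4 * j + 6 - (2 * j + 4) = 2 * j + 2 by omega]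
    refine Finset.prod_congr rfl fun i hi => ?_
    have hi' := Finset.mem_range.1 hi
    rw [dif_pos (by omega : 2 * j + 4 + i < 4 * j + 6), ha]
    simp only
    rw [hπt _ (by omega) (by omega), hΘz]
    congr 4
    omega
  have hp1 : pp a (2 * j + 1 + 1) = pp a (2 * j + 1) * a ⟨2 * j + 1, by omega⟩ := pp_succ a ⟨2 * j + 1, by omega⟩
  have hp2 : pp a (2 * j + 2 + 1) = pp a (2 * j + 2) * a ⟨2 * j + 2, by omega⟩ := pp_succ a ⟨2 * j + 2, by omega⟩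
  have hp3 : pp a (2 * j + 3 + 1) = pp a (2 * j + 3) * a ⟨2 * j + 3, by omega⟩ := pp_succ a ⟨2 * j + 3, by omega⟩
  obtain ⟨e, he⟩ : ∃ e : ℂ, e = Complex.exp ((Real.pi * M : ℝ) * Complex.I) := ⟨_, rfl⟩
  have hee : e * e = 1 := by
    rw [he, ← Complex.exp_add]
    refine Complex.exp_eq_one_iff.2 ⟨M, ?_⟩
    push_cast
    ring
  obtain ⟨w, hw0, hw1, hw⟩ := hW (Θ k) (Θ (k + (2 * j + 3))) η (Real.pi * M - sE) (by
    have h1 : 0 < Real.sin ((Θ k + η) / 2) := Real.sin_pos_of_pos_of_lt_pi (by linarith) (by linarith)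
    have h2 : 0 < Real.sin ((Θ (k + (2 * j + 3)) + η) / 2) :=
      Real.sin_pos_of_pos_of_lt_pi (by linarith) (by linarith)
    have h3 : Real.sin ((Real.pi * M - sE - Θ k) / 2) *
        Real.sin ((Real.pi * M - sE - Θ (k + (2 * j + 3))) / 2) ≤ 0 := by
      rcases mul_nonpos_iff.1 hcr with ⟨h4, h5⟩ | ⟨h4, h5⟩
      · refine mul_nonpos_of_nonpos_of_nonneg ?_ ?_
        · exact Real.sin_nonpos_of_nonpos_of_neg_pi_le (by linarith) (by linarith)
        · exact Real.sin_nonneg_of_nonneg_of_le_pi (by linarith) (by linarith)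
      · refine mul_nonpos_of_nonneg_of_nonpos ?_ ?_
        · exact Real.sin_nonneg_of_nonneg_of_le_pi (by linarith) (by linarith)
        · exact Real.sin_nonpos_of_nonpos_of_neg_pi_le (by linarith) (by linarith)
    have h6 : (Real.sin ((Real.pi * M - sE - Θ k) / 2) * Real.sin ((Θ k + η) / 2)) *
        (Real.sin ((Real.pi * M - sE - Θ (k + (2 * j + 3))) / 2) * Real.sin ((Θ (k + (2 * j + 3)) + η) / 2)) =
        (Real.sin ((Real.pi * M - sE - Θ k) / 2) * Real.sin ((Real.pi * M - sE - Θ (k + (2 * j + 3))) / 2)) *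
        (Real.sin ((Θ k + η) / 2) * Real.sin ((Θ (k + (2 * j + 3)) + η) / 2)) := by ring
    rw [h6]
    exact mul_nonpos_of_nonpos_of_nonneg h3 (mul_pos h1 h2).le)
  refine ⟨π, j, by omega, e, w, mul_self_eq_one_iff.1 hee, hw0, hw1, ?_⟩
  have hfun : (fun i => z (π i)) = a := ha.symm
  have hstar : star (a ⟨2 * j + 2, by omega⟩) = Complex.exp (-(η * Complex.I)) := by
    rw [ha2, Complex.star_def, ← Complex.exp_conj]
    congr 1
    simp
  rw [hfun]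
  show e * star (a ⟨2 * j + 2, _⟩) + pp a (2 * j + 4) =
      w * (pp a (2 * j + 1) * a ⟨2 * j + 1, _⟩ + e * a ⟨2 * j + 3, _⟩) +
      (1 - w) * (e * a ⟨2 * j + 1, _⟩ + pp a (2 * j + 1) * a ⟨2 * j + 3, _⟩)
  rw [hstar]
  have hx := Complex.exp_ne_zero ((Θ k : ℝ) * Complex.I)
  have hg := Complex.exp_ne_zero ((Θ (k + (2 * j + 3)) : ℝ) * Complex.I)
  have hy := Complex.exp_ne_zero ((η : ℝ) * Complex.I)
  have ht := Complex.exp_ne_zero ((sE : ℝ) * Complex.I)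
  have hyn : Complex.exp (-(η * Complex.I)) = (Complex.exp ((η : ℝ) * Complex.I))⁻¹ := Complex.exp_neg _
  have w1 : Complex.exp (((Real.pi * M - sE : ℝ) : ℂ) * Complex.I) = e * (Complex.exp ((sE : ℝ) * Complex.I))⁻¹ := by
    rw [he, ← Complex.exp_neg, ← Complex.exp_add]
    congr 1
    push_cast
    ring
  have w2 : Complex.exp ((((Real.pi * M - sE : ℝ) : ℂ) - η - (Θ (k + (2 * j + 3)) : ℝ)) * Complex.I) =
      e * (Complex.exp ((sE : ℝ) * Complex.I))⁻¹ * (Complex.exp ((η : ℝ) * Complex.I))⁻¹ *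
        (Complex.exp ((Θ (k + (2 * j + 3)) : ℝ) * Complex.I))⁻¹ := by
    rw [he, ← Complex.exp_neg, ← Complex.exp_neg, ← Complex.exp_neg, ← Complex.exp_add, ← Complex.exp_add,
      ← Complex.exp_add]
    congr 1
    push_cast
    ring
  have w3 : Complex.exp ((((Real.pi * M - sE : ℝ) : ℂ) - η - (Θ k : ℝ)) * Complex.I) =
      e * (Complex.exp ((sE : ℝ) * Complex.I))⁻¹ * (Complex.exp ((η : ℝ) * Complex.I))⁻¹ *
        (Complex.exp ((Θ k : ℝ) * Complex.I))⁻¹ := by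
    rw [he, ← Complex.exp_neg, ← Complex.exp_neg, ← Complex.exp_neg, ← Complex.exp_add, ← Complex.exp_add,
      ← Complex.exp_add]
    congr 1
    push_cast
    ring
  rw [w1, w2, w3, hyn] at hw
  rw [ha1, ha3, hyn]
  rw [ha1] at hp1
  rw [ha2] at hp2
  rw [ha3] at hp3
  have hp4 : pp a (2 * j + 4) = (Complex.exp ((sE : ℝ) * Complex.I))⁻¹ := eq_inv_of_mul_eq_one_left htail
  have hp5 : pp a (2 * j + 1) = (Complex.exp ((sE : ℝ) * Complex.I))⁻¹ * (Complex.exp ((Θ k : ℝ) * Complex.I))⁻¹ *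
      (Complex.exp ((η : ℝ) * Complex.I))⁻¹ * (Complex.exp ((Θ (k + (2 * j + 3)) : ℝ) * Complex.I))⁻¹ := by
    have h1 : pp a (2 * j + 1) * Complex.exp ((Θ k : ℝ) * Complex.I) * Complex.exp ((η : ℝ) * Complex.I) *
        Complex.exp ((Θ (k + (2 * j + 3)) : ℝ) * Complex.I) = (Complex.exp ((sE : ℝ) * Complex.I))⁻¹ := by
      rw [← hp4, ← hp1, ← hp2, ← hp3]
    rw [← h1]
    field_simp
  rw [hp4, hp5]
  generalize Complex.exp ((Θ k : ℝ) * Complex.I) = x at *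
  generalize Complex.exp ((Θ (k + (2 * j + 3)) : ℝ) * Complex.I) = g at *
  generalize Complex.exp ((η : ℝ) * Complex.I) = y at *
  generalize Complex.exp ((sE : ℝ) * Complex.I) = t at *
  have hw' := congrArg (HMul.hMul e) hw
  have q1 : e * (e * t⁻¹ + y⁻¹) = e * y⁻¹ + t⁻¹ := by
    rw [mul_add, ← mul_assoc, hee, one_mul, add_comm]
  have q2 : e * (↑w * (e * t⁻¹ * y⁻¹ * g⁻¹ + g) + (1 - ↑w) * (x + e * t⁻¹ * y⁻¹ * x⁻¹)) =
      ↑w * ((e * e) * (t⁻¹ * y⁻¹ * g⁻¹) + e * g) + (1 - ↑w) * (e * x + (e * e) * (t⁻¹ * y⁻¹ * x⁻¹)) := by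
    ring
  rw [q1, q2, hee] at hw'
  rw [hw']
  field_simp

end Run7.h739.SU
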